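import Pool.Agent.P.MP_bc3e0b_gt.Hyperbolic

set_option autoImplicit false

namespace Pool.Agent.P.MP_bc3e0b_gt.St

open MeasureTheory Set Filter Topology Matrix
open scoped ENNReal

theorem det_sq_le_exp {n : ℕ} (N : Matrix (Fin n) (Fin n) ℝ) {c : ℝ} (hc : 0 < c) :
    N.det ^ 2 ≤ c ^ n * Real.exp ((∑ i, N i ⬝ᵥ N i) / c - n) := by
  have hP : (N * Nᵀ).PosSemidef := by
    simpa using posSemidef_self_mul_conjTranspose N
  have h1 := hP.isHermitian.det_eq_prod_eigenvalues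
  have h2 := hP.isHermitian.trace_eq_sum_eigenvalues
  simp only [RCLike.ofReal_real_eq_id, id] at h1 h2
  have h3 : (N * Nᵀ).trace = ∑ i, N i ⬝ᵥ N i := by simp [trace, mul_apply, dotProduct]
  have h4 : ∏ i, hP.isHermitian.eigenvalues i / c
      ≤ ∏ i, Real.exp (hP.isHermitian.eigenvalues i / c - 1) :=
    Finset.prod_le_prod (fun i _ => div_nonneg (hP.eigenvalues_nonneg i) hc.le) fun i _ => by
      linarith [Real.add_one_le_exp (hP.isHermitian.eigenvalues i / c - 1)]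
  rw [Finset.prod_div_distrib, ← h1, det_mul, det_transpose, Finset.prod_const, Finset.card_univ,
    Fintype.card_fin, div_le_iff₀ (by positivity), ← Real.exp_sum, Finset.sum_sub_distrib,
    ← Finset.sum_div, ← h2, h3] at h4
  rw [sq, mul_comm (c ^ n)]
  simpa using h4

theorem det_sq_le_off {n : ℕ} (N : Matrix (Fin n) (Fin n) ℝ) {c : ℝ} (hc : 0 < c)
    (hd : ∀ i, N i ⬝ᵥ N i = c) {i j : Fin n} (hij : i ≠ j) :
    N.det ^ 2 ≤ c ^ n * Real.exp (-((N i ⬝ᵥ N j) ^ 2 / c ^ 2)) := by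
  have h1 := det_sq_le_exp (updateRow N i (N i + (-(N i ⬝ᵥ N j) / c) • N j)) hc
  rw [det_updateRow_add_smul_self N hij] at h1
  refine h1.trans (le_of_eq ?_)
  congr 2
  have h2 : ∀ l, updateRow N i (N i + (-(N i ⬝ᵥ N j) / c) • N j) l
      ⬝ᵥ updateRow N i (N i + (-(N i ⬝ᵥ N j) / c) • N j) l
      = c - if l = i then (N i ⬝ᵥ N j) ^ 2 / c else 0 := by
    intro l
    split_ifs with h
    · rw [h, updateRow_self]
      simp only [add_dotProduct, dotProduct_add, smul_dotProduct, dotProduct_smul, smul_eq_mul, hd,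
        dotProduct_comm (N j) (N i)]
      field_simp
      ring
    · rw [updateRow_ne h, hd, sub_zero]
  simp only [h2, Finset.sum_sub_distrib, Finset.sum_const, Finset.card_univ, Fintype.card_fin,
    nsmul_eq_mul, Finset.sum_ite_eq', Finset.mem_univ, if_true]
  field_simp
  ring

variable {k : ℕ} {b : Fin (k + 2) → Fin (k + 1) → ℝ}

theorem sum_reg (hb : ∀ i, b i ⬝ᵥ b i = 1) (hbb : ∀ i j, i ≠ j → b i ⬝ᵥ b j = -1 / (k + 1)) :
    ∑ j, b j = 0 := by
  rw [← dotProduct_self_eq_zero, sum_dotProduct]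
  refine Finset.sum_eq_zero fun i _ => ?_
  rw [dotProduct_sum, ← Finset.add_sum_erase _ _ (Finset.mem_univ i),
    Finset.sum_congr rfl fun j hj => hbb i j (Finset.ne_of_mem_erase hj).symm, Finset.sum_const,
    Finset.card_erase_of_mem (Finset.mem_univ i), Finset.card_univ, Fintype.card_fin,
    nsmul_eq_mul, hb]
  simp only [Nat.add_succ_sub_one, Nat.cast_add, Nat.cast_one]
  field_simp
  ring

theorem gram_reg (hb : ∀ i, b i ⬝ᵥ b i = 1) (hbb : ∀ i j, i ≠ j → b i ⬝ᵥ b j = -1 / (k + 1))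
    {τ : ℝ} (hτ2 : τ ^ 2 = 1 / (k + 1)) :
    lift τ b * (lift τ b)ᵀ = (1 + τ ^ 2) • (1 : Matrix _ _ ℝ) := by
  ext i j
  rw [lift_gram, Matrix.smul_apply, one_apply, smul_eq_mul]
  split_ifs with hij
  · rw [hij, hb]; ring
  · rw [hbb _ _ hij, hτ2]; ring

theorem bound_reg (hb : ∀ i, b i ⬝ᵥ b i = 1) (hbb : ∀ i j, i ≠ j → b i ⬝ᵥ b j = -1 / (k + 1))
    {ρ : ℝ} {x : Fin (k + 1) → ℝ} (hx : ∀ i, b i ⬝ᵥ x ≤ ρ) : x ⬝ᵥ x ≤ ((k + 1) * ρ) ^ 2 := by
  have hk : (0 : ℝ) < k + 1 := by positivity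
  set τ := √(1 / (k + 1 : ℝ)) with hτd
  have hτ2 : τ ^ 2 = 1 / (k + 1) := Real.sq_sqrt (by positivity)
  have hsz : ∑ j, b j ⬝ᵥ x = 0 := by rw [← sum_dotProduct, sum_reg hb hbb, zero_dotProduct]
  have hz2 : ∑ j, (b j ⬝ᵥ x) ^ 2 = (k + 2) / (k + 1) * (x ⬝ᵥ x) := by
    have h0 : (0 : ℝ) < 1 + τ ^ 2 := by positivity
    have h1 : lift τ b * ((1 + τ ^ 2)⁻¹ • (lift τ b)ᵀ) = 1 := by
      rw [Matrix.mul_smul, gram_reg hb hbb hτ2, smul_smul, inv_mul_cancel₀ h0.ne', one_smul]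
    have h2 : (lift τ b)ᵀ * lift τ b = (1 + τ ^ 2) • (1 : Matrix _ _ ℝ) := by
      rw [mul_eq_one_comm, Matrix.smul_mul] at h1
      rw [← h1, smul_smul, mul_inv_cancel₀ h0.ne', one_smul]
    have h3 : (Fin.cons 0 x : Fin (k + 2) → ℝ) ⬝ᵥ ((lift τ b)ᵀ * lift τ b) *ᵥ Fin.cons 0 x
        = (lift τ b *ᵥ Fin.cons 0 x) ⬝ᵥ (lift τ b *ᵥ Fin.cons 0 x) := by
      rw [← mulVec_mulVec, dotProduct_mulVec, vecMul_transpose]
    rw [h2, smul_mulVec, one_mulVec, dotProduct_smul, dot_cons, smul_eq_mul, hτ2] at h3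
    have h4 : (lift τ b *ᵥ Fin.cons 0 x) ⬝ᵥ (lift τ b *ᵥ Fin.cons 0 x) = ∑ j, (b j ⬝ᵥ x) ^ 2 := by
      rw [dotProduct]
      refine Finset.sum_congr rfl fun j _ => ?_
      rw [lift_mulVec]
      simp [sq]
    rw [← h4, ← h3]
    field_simp
    ring
  have h5 := Finset.sum_sq_le_sq_sum_of_nonneg (s := Finset.univ) (f := fun j => ρ - b j ⬝ᵥ x)
    fun j _ => sub_nonneg.2 (hx j)
  simp only [sub_sq, Finset.sum_add_distrib, Finset.sum_sub_distrib, ← Finset.mul_sum, hsz, hz2,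
    Finset.sum_const, Finset.card_univ, Fintype.card_fin, nsmul_eq_mul] at h5
  push_cast at h5
  have h6 : (k + 2) / (k + 1) * (x ⬝ᵥ x) ≤ (k + 2) / (k + 1) * ((k + 1) * ρ) ^ 2 := by
    have : (k + 2) / (k + 1) * ((k + 1) * ρ) ^ 2 = (k + 2) * (k + 1) * ρ ^ 2 := by
      field_simp
    rw [this]
    nlinarith
  exact le_of_mul_le_mul_left h6 (by positivity)

theorem aff (ρ : ℝ) (a : Fin (k + 2) → Fin (k + 1) → ℝ)
    (ha : ∀ i, a i ⬝ᵥ a i = 1) (hb : ∀ i, b i ⬝ᵥ b i = 1)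
    (hbb : ∀ i j, i ≠ j → b i ⬝ᵥ b j = -1 / (k + 1))
    (hrec : ∀ x, (∀ i, a i ⬝ᵥ x ≤ 0) → x = 0) :
    ENNReal.ofReal (1 + (∑ i, ∑ j, (a i ⬝ᵥ a j - b i ⬝ᵥ b j) ^ 2) / (8 * (k + 2) ^ 2))
      * volume {x | ∀ i, b i ⬝ᵥ x ≤ ρ} ≤ volume {x | ∀ i, a i ⬝ᵥ x ≤ ρ} := by
  have hk : (0 : ℝ) < k + 1 := by positivity
  have hn : (0 : ℝ) < k + 2 := by positivity
  set τ := √(1 / (k + 1 : ℝ)) with hτd
  have hτ : 0 < τ := Real.sqrt_pos.2 (by positivity)
  have hτ2 : τ ^ 2 = 1 / (k + 1) := Real.sq_sqrt (by positivity)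
  obtain ⟨μ, U, hμ, hμs, hU0, hU⟩ := exists_data hτ a hrec
  set u : Fin (k + 2) → Fin (k + 1) → ℝ := fun j l => U l.succ j with hu
  have hau : ∀ i j, a i ⬝ᵥ u j = 1 / (k + 2) - if i = j then (μ i)⁻¹ else 0 := by
    intro i j
    have h1 := congrFun (congrFun hU i) j
    rw [Matrix.mul_assoc, diagonal_mul] at h1
    have h2 : (lift τ a * U) i j = τ * U 0 j - a i ⬝ᵥ u j := lift_mulVec τ a (fun l => U l j) i
    rw [h2, hU0, one_apply] at h1
    have h3 := (hμ i).ne'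
    have h4 : τ * (1 / ((((k + 1 : ℕ) : ℝ) + 1) * τ)) = 1 / (k + 2) := by
      push_cast
      field_simp
      ring
    rw [h4] at h1
    split_ifs at h1 ⊢
    · field_simp at h1 ⊢
      linarith
    · rw [mul_eq_zero] at h1
      linarith [h1.resolve_left h3]
  have hsb := sum_reg hb hbb
  have hsz : ∀ x, ∑ j, b j ⬝ᵥ x = 0 := fun x => by rw [← sum_dotProduct, hsb, zero_dotProduct]
  set ub : Fin (k + 1) → ℝ := ∑ j, u j with hub
  have haub : ∀ i, a i ⬝ᵥ ub = 1 - (μ i)⁻¹ := by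
    intro i
    rw [hub, dotProduct_sum]
    simp only [hau, Finset.sum_sub_distrib, Finset.sum_const, Finset.card_univ, Fintype.card_fin,
      nsmul_eq_mul, Finset.sum_ite_eq, Finset.mem_univ, if_true]
    push_cast
    field_simp
  set A : Matrix (Fin (k + 1)) (Fin (k + 1)) ℝ := (U * lift τ b).submatrix Fin.succ Fin.succ
    with hAd
  have hAx : ∀ x, A *ᵥ x = -∑ j, (b j ⬝ᵥ x) • u j := by
    intro x
    funext l
    simp only [hAd, mulVec, dotProduct, submatrix_apply, mul_apply, lift, of_apply, Fin.cons_succ,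
      Pi.neg_apply, Finset.sum_apply, Pi.smul_apply, smul_eq_mul, hu,
      Finset.sum_mul, ← Finset.sum_neg_distrib]
    rw [Finset.sum_comm]
    exact Finset.sum_congr rfl fun j _ => Finset.sum_congr rfl fun i _ => by ring
  have h1 : (U * lift τ b).det = A.det := by
    rw [det_succ_row_zero, Fin.sum_univ_succ]
    have e0 : (U * lift τ b) 0 0 = 1 := by
      simp only [mul_apply, hU0, lift, of_apply, Fin.cons_zero, Finset.sum_const,
        Finset.card_univ, Fintype.card_fin, nsmul_eq_mul]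
      push_cast
      field_simp
    have e1 : ∀ l : Fin (k + 1), (U * lift τ b) 0 l.succ = 0 := by
      intro l
      simp only [mul_apply, hU0, lift, of_apply, Fin.cons_succ]
      rw [← Finset.mul_sum, Finset.sum_neg_distrib, ← Finset.sum_apply, hsb]
      simp
    simp only [e0, e1, mul_zero, zero_mul, Finset.sum_const_zero, add_zero, Fin.val_zero,
      pow_zero, one_mul, Fin.succAbove_zero, hAd]
  have h2 : (lift τ b).det ^ 2 = (1 + τ ^ 2) ^ (k + 2) := by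
    have := congrArg det (gram_reg hb hbb hτ2)
    rwa [det_mul, det_transpose, ← sq, det_smul, det_one, mul_one, Fintype.card_fin] at this
  have hg : ∀ i j, lift τ a i ⬝ᵥ lift τ a j = τ ^ 2 + a i ⬝ᵥ a j := fun i j => lift_gram τ a i j
  have hoff : ∀ i j, i ≠ j → 1 + (a i ⬝ᵥ a j - b i ⬝ᵥ b j) ^ 2 / 8 ≤ |A.det| := by
    intro i j hij
    have c0 : (0 : ℝ) < 1 + τ ^ 2 := by positivity
    have c2 : 1 + τ ^ 2 ≤ 2 := by
      rw [hτ2]
      have : 1 / (k + 1 : ℝ) ≤ 1 := by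
        rw [div_le_one hk]
        linarith [Nat.cast_nonneg (α := ℝ) k]
      linarith
    have h3 := det_sq_le_off (lift τ a) c0 (fun i => by rw [hg, ha]; ring) hij
    have e : lift τ a i ⬝ᵥ lift τ a j = a i ⬝ᵥ a j - b i ⬝ᵥ b j := by
      rw [hg, hbb i j hij, hτ2]; ring
    rw [e] at h3
    generalize a i ⬝ᵥ a j - b i ⬝ᵥ b j = G at h3 ⊢
    have h4 := congrArg det hU
    rw [det_mul, det_mul, det_diagonal, det_one] at h4
    have h5 : ∏ i, μ i ≤ 1 := prod_le_one_of_sum (fun i => (hμ i).le) hμs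
    have h6 : 0 < ∏ i, μ i := Finset.prod_pos fun i _ => hμ i
    have h7 : 1 ≤ A.det ^ 2 * Real.exp (-(G ^ 2 / (1 + τ ^ 2) ^ 2)) := by
      rw [← h1, det_mul, mul_pow, h2]
      calc (1 : ℝ) = ((∏ i, μ i) ^ 2) * (U.det ^ 2 * (lift τ a).det ^ 2) := by
            rw [← one_pow 2, ← h4]; ring
        _ ≤ 1 ^ 2 * (U.det ^ 2 * ((1 + τ ^ 2) ^ (k + 2)
            * Real.exp (-(G ^ 2 / (1 + τ ^ 2) ^ 2)))) := by gcongr
        _ = _ := by ring
    have h8 : Real.exp (G ^ 2 / 8) ^ 2 ≤ |A.det| ^ 2 := by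
      rw [Real.exp_neg, ← div_eq_mul_inv, le_div_iff₀ (Real.exp_pos _), one_mul] at h7
      rw [sq_abs, ← Real.exp_nat_mul]
      refine le_trans (Real.exp_le_exp.2 ?_) h7
      rw [le_div_iff₀ (by positivity)]
      have : (1 + τ ^ 2) ^ 2 ≤ 2 ^ 2 := by gcongr
      push_cast
      nlinarith [sq_nonneg G]
    have h9 := (sq_le_sq₀ (Real.exp_pos _).le (abs_nonneg _)).1 h8
    linarith [Real.add_one_le_exp (G ^ 2 / 8)]
  have hone : 1 ≤ |A.det| := by
    have := hoff 0 1 zero_ne_one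
    linarith [show 0 ≤ (a 0 ⬝ᵥ a 1 - b 0 ⬝ᵥ b 1) ^ 2 / 8 by positivity]
  have hdet : 1 + (∑ i, ∑ j, (a i ⬝ᵥ a j - b i ⬝ᵥ b j) ^ 2) / (8 * (k + 2) ^ 2) ≤ |A.det| := by
    have h3 : ∀ i j, (a i ⬝ᵥ a j - b i ⬝ᵥ b j) ^ 2 ≤ 8 * (|A.det| - 1) := by
      intro i j
      by_cases hij : i = j
      · rw [hij, ha, hb]
        linarith
      · linarith [hoff i j hij]
    have h4 := Finset.sum_le_sum (s := Finset.univ) fun i _ =>
      Finset.sum_le_sum (s := Finset.univ) fun j _ => h3 i j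
    simp only [Finset.sum_const, Finset.card_univ, Fintype.card_fin, nsmul_eq_mul] at h4
    push_cast at h4
    rw [add_comm, ← le_sub_iff_add_le, div_le_iff₀ (by positivity)]
    linarith
  set Φ : (Fin (k + 1) → ℝ) → Fin (k + 1) → ℝ := fun x => ρ • ub + toLin' A x with hΦ
  have hΦa : ∀ x, (∀ i, b i ⬝ᵥ x ≤ ρ) → ∀ i, a i ⬝ᵥ Φ x ≤ ρ := by
    intro x hx i
    simp only [hΦ, toLin'_apply, hAx, dotProduct_add, dotProduct_smul, dotProduct_neg,
      dotProduct_sum, haub, hau, smul_eq_mul, mul_sub, Finset.sum_sub_distrib, mul_ite, mul_zero,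
      Finset.sum_ite_eq, Finset.mem_univ, if_true, ← Finset.sum_mul]
    rw [hsz]
    have := mul_le_mul_of_nonneg_right (hx i) (inv_pos.2 (hμ i)).le
    linarith
  have hcl : MeasurableSet {x | ∀ i, a i ⬝ᵥ x ≤ ρ} := by
    have : {x | ∀ i, a i ⬝ᵥ x ≤ ρ} = ⋂ i, {x | a i ⬝ᵥ x ≤ ρ} := by ext x; simp
    rw [this]
    exact (isClosed_iInter fun i => isClosed_le (by fun_prop) continuous_const).measurableSet
  have hΦm : Measurable Φ :=
    measurable_const.add (LinearMap.continuous_of_finiteDimensional _).measurable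
  have hd0 : A.det ≠ 0 := abs_pos.1 (one_pos.trans_le hone)
  have hmap : Measure.map Φ volume = ENNReal.ofReal |A.det⁻¹| • volume := by
    rw [show Φ = (fun y => ρ • ub + y) ∘ toLin' A from rfl,
      ← Measure.map_map (by fun_prop) (LinearMap.continuous_of_finiteDimensional _).measurable,
      Real.map_matrix_volume_pi_eq_smul_volume_pi hd0, Measure.map_smul, map_add_left_eq_self]
  calc _ ≤ ENNReal.ofReal |A.det| * volume (Φ ⁻¹' {x | ∀ i, a i ⬝ᵥ x ≤ ρ}) :=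
        mul_le_mul' (ENNReal.ofReal_le_ofReal hdet) (measure_mono fun x hx => hΦa x hx)
    _ = _ := by
        rw [← Measure.map_apply hΦm hcl, hmap, Measure.smul_apply, smul_eq_mul, ← mul_assoc,
          ← ENNReal.ofReal_mul (abs_nonneg _), ← abs_mul, mul_inv_cancel₀ hd0, abs_one,
          ENNReal.ofReal_one, one_mul]

end Pool.Agent.P.MP_bc3e0b_gt.St
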