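import Pool.Agent.P.MP_bc3e0b_gt.St.Det
import Pool.Agent.P.MP_bc3e0b_gt.Caps.Limit

set_option autoImplicit false

namespace Pool.Agent.P.MP_bc3e0b_gt.St

open MeasureTheory Set Filter Topology Metric Caps
open scoped ENNReal RealInnerProductSpace

variable {d : ℕ} {a b : Fin (d + 1) → E d}

/-- The region cut out by the normals `u` at level `ρ`. -/
def R (u : Fin (d + 1) → E d) (ρ : ℝ) : Set (E d) := {x | ∀ i, ⟪u i, x⟫ ≤ ρ}

/-- Squared distance of the Gram matrices, normalised. -/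
noncomputable def D (a b : Fin (d + 1) → E d) : ℝ :=
  (∑ i, ∑ j, (⟪a i, a j⟫ - ⟪b i, b j⟫) ^ 2) / (8 * (d + 1) ^ 2)

theorem meas_R (u : Fin (d + 1) → E d) (ρ : ℝ) : MeasurableSet (R u ρ) := by
  simp only [R, ofPred_forall]
  exact MeasurableSet.iInter fun i => measurableSet_le (measurable_const.inner measurable_id)
    measurable_const

theorem D_nonneg (a b : Fin (d + 1) → E d) : 0 ≤ D a b := by
  unfold D
  positivity

theorem D_le (ha : ∀ i, ‖a i‖ = 1) (hb : ∀ i, ‖b i‖ = 1) : D a b ≤ 1 := by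
  have h3 : ∀ i j, (⟪a i, a j⟫ - ⟪b i, b j⟫) ^ 2 ≤ (2 : ℝ) ^ 2 := fun i j => by
    have h1 := abs_real_inner_le_norm (a i) (a j)
    have h2 := abs_real_inner_le_norm (b i) (b j)
    rw [ha, ha, abs_le] at h1
    rw [hb, hb, abs_le] at h2
    exact sq_le_sq' (by linarith) (by linarith)
  have h4 := Finset.sum_le_sum (s := Finset.univ) fun i _ =>
    Finset.sum_le_sum (s := Finset.univ) fun j _ => h3 i j
  simp only [Finset.sum_const, Finset.card_univ, Fintype.card_fin, nsmul_eq_mul] at h4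
  push_cast at h4
  rw [D, div_le_one (by positivity)]
  nlinarith [sq_nonneg (d + 1 : ℝ)]

theorem inner_dot (u v : E d) : ⟪u, v⟫ = u.ofLp ⬝ᵥ v.ofLp := by
  simp [dotProduct, PiLp.inner_apply, mul_comm]

theorem R_sub (hd : 3 ≤ d) (hb : ∀ i, ‖b i‖ = 1) (hr : ∀ i l, i ≠ l → ⟪b i, b l⟫ = -1 / (d : ℝ))
    {ρ : ℝ} (hρ : 0 ≤ ρ) : R b ρ ⊆ closedBall 0 (d * ρ) := by
  obtain ⟨k, rfl⟩ : ∃ k, d = k + 1 := ⟨d - 1, by omega⟩
  intro x hx
  have h := bound_reg (k := k) (b := fun i => (b i).ofLp)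
    (fun i => by rw [← inner_dot, real_inner_self_eq_norm_sq, hb, one_pow])
    (fun i j hij => by rw [← inner_dot, hr i j hij]; push_cast; rfl) (x := x.ofLp) (ρ := ρ)
    fun i => by rw [← inner_dot]; exact hx i
  rw [← inner_dot, real_inner_self_eq_norm_sq] at h
  rw [mem_closedBall_zero_iff]
  push_cast
  exact (sq_le_sq₀ (norm_nonneg _) (by positivity)).1 h

theorem aff_E (hd : 3 ≤ d) (ha : ∀ i, ‖a i‖ = 1) (hb : ∀ i, ‖b i‖ = 1)
    (hr : ∀ i l, i ≠ l → ⟪b i, b l⟫ = -1 / (d : ℝ)) (ρ : ℝ)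
    (hrec : ∀ x, (∀ i, ⟪a i, x⟫ ≤ 0) → x = 0) :
    ENNReal.ofReal (1 + D a b) * volume (R b ρ) ≤ volume (R a ρ) := by
  obtain ⟨k, rfl⟩ : ∃ k, d = k + 1 := ⟨d - 1, by omega⟩
  have h := aff (k := k) (b := fun i => (b i).ofLp) ρ (fun i => (a i).ofLp)
    (fun i => by rw [← inner_dot, real_inner_self_eq_norm_sq, ha, one_pow])
    (fun i => by rw [← inner_dot, real_inner_self_eq_norm_sq, hb, one_pow])
    (fun i j hij => by rw [← inner_dot, hr i j hij]; push_cast; rfl) fun x hx => by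
      have := hrec (WithLp.toLp 2 x) fun i => by rw [inner_dot]; exact hx i
      simpa using this
  have tr : ∀ c : Fin (k + 1 + 1) → E (k + 1),
      volume (R c ρ) = volume {x | ∀ i, (c i).ofLp ⬝ᵥ x ≤ ρ} := fun c => by
    rw [← (PiLp.volume_preserving_toLp (Fin (k + 1))).measure_preimage
      (meas_R c ρ).nullMeasurableSet]
    simp only [R, inner_dot, preimage_ofPred_eq]
  rw [tr, tr, D]
  simp only [inner_dot]
  push_cast
  rwa [show (k + 1 + 1 : ℝ) = k + 2 by ring]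

theorem rad_caps (hd : 3 ≤ d) (ha : ∀ i, ‖a i‖ = 1) (hb : ∀ i, ‖b i‖ = 1)
    (hr : ∀ i l, i ≠ l → ⟪b i, b l⟫ = -1 / (d : ℝ)) (ρ : ℝ) {g : ℝ → ℝ≥0∞} (hg : Measurable g) :
    ∫⁻ x in R b ρ, g ‖x‖ ≤ ∫⁻ x in R a ρ, g ‖x‖ := by
  have hm : Measurable fun x : E d => g ‖x‖ := hg.comp measurable_norm
  have h := caps hd ha hb hr (volume.withDensity fun x : E d => g ‖x‖) (fun T => by
    ext s hs
    have hT : Measurable T := T.continuous.measurable
    rw [Measure.map_apply hT hs, withDensity_apply _ (hT hs), withDensity_apply _ hs,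
      ← T.measurePreserving.setLIntegral_comp_preimage hs hm]
    simp only [LinearIsometryEquiv.norm_map]) (θ := fun _ => ρ) measurable_const
  rwa [← withDensity_apply _ (meas_R b ρ), ← withDensity_apply _ (meas_R a ρ)]

theorem int_ind (S : Set (E d)) {I : Set ℝ} (hI : MeasurableSet I) (w : ℝ≥0∞) :
    ∫⁻ x in S, I.indicator (fun _ => w) ‖x‖ = w * volume (S ∩ {x | ‖x‖ ∈ I}) := by
  have hm : MeasurableSet {x : E d | ‖x‖ ∈ I} := measurable_norm hI
  rw [show (fun x : E d => I.indicator (fun _ => w) ‖x‖)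
    = {x : E d | ‖x‖ ∈ I}.indicator fun _ => w from rfl, lintegral_indicator_const hm,
    Measure.restrict_apply hm, inter_comm]

theorem euc (hd : 3 ≤ d) (ha : ∀ i, ‖a i‖ = 1) (hb : ∀ i, ‖b i‖ = 1)
    (hr : ∀ i l, i ≠ l → ⟪b i, b l⟫ = -1 / (d : ℝ)) {ρ q : ℝ} (hρ : 0 < ρ) (hq : d < q) :
    volume (R b ρ) + ENNReal.ofReal (D a b) * volume (ball (0 : E d) ((q - d) / (2 * q) * ρ))
      ≤ volume (R a ρ ∩ ball 0 (q * ρ)) := by
  have d3 : (3 : ℝ) ≤ d := by exact_mod_cast hd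
  have q0 : 0 < q := by linarith
  set ε := (q - d) / (2 * q) with hε
  have ε1 : ε ≤ (q - d) / 2 := by
    rw [hε]
    gcongr
    linarith
  have ε2 : (q + d) / (2 * q) + ε = 1 := by
    rw [hε]
    field_simp
    ring
  have ε3 : 0 < (q + d) / (2 * q) := by positivity
  by_cases hA : R a ρ ⊆ ball 0 (q * ρ)
  · have hrec : ∀ x, (∀ i, ⟪a i, x⟫ ≤ 0) → x = 0 := by
      intro x hx
      by_contra h0
      have n0 := norm_pos_iff.2 h0
      have h1 := hA (a := (q * ρ / ‖x‖) • x) fun i => by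
        rw [inner_smul_right]
        exact (mul_nonpos_of_nonneg_of_nonpos (by positivity) (hx i)).trans hρ.le
      rw [mem_ball_zero_iff, norm_smul, Real.norm_of_nonneg (by positivity),
        div_mul_cancel₀ _ n0.ne'] at h1
      exact lt_irrefl _ h1
    rw [inter_eq_left.2 hA]
    refine le_trans ?_ (aff_E hd ha hb hr ρ hrec)
    rw [ENNReal.ofReal_add zero_le_one (D_nonneg a b), ENNReal.ofReal_one, add_mul, one_mul]
    gcongr
    intro x hx i
    have h1 := real_inner_le_norm (b i) x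
    rw [hb, one_mul] at h1
    have h2 := mem_ball_zero_iff.1 hx
    nlinarith
  · obtain ⟨x₀, hx, hn⟩ := not_subset.1 hA
    rw [mem_ball_zero_iff, not_lt] at hn
    have n0 : 0 < ‖x₀‖ := lt_of_lt_of_le (by positivity) hn
    set t := (q + d) * ρ / (2 * ‖x₀‖) with ht
    have t0 : 0 < t := by positivity
    have t1 : t ≤ (q + d) / (2 * q) := by
      rw [ht, div_le_div_iff₀ (by positivity) (by positivity)]
      nlinarith [mul_le_mul_of_nonneg_left hn (show (0 : ℝ) ≤ q + d by positivity)]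
    have hz : ‖t • x₀‖ = (q + d) * ρ / 2 := by
      rw [norm_smul, Real.norm_of_nonneg t0.le, ht]
      field_simp
    have hs : ball (t • x₀) (ε * ρ) ⊆ (R a ρ ∩ ball 0 (q * ρ)) \ closedBall 0 (d * ρ) := by
      intro y hy
      have h1 := mem_ball_iff_norm.1 hy
      have h2 := norm_sub_norm_le y (t • x₀)
      have h3 := norm_sub_norm_le (t • x₀) y
      rw [norm_sub_rev] at h3
      have h4 := mul_le_mul_of_nonneg_right ε1 hρ.le
      refine ⟨⟨fun i => ?_, mem_ball_zero_iff.2 (by linarith)⟩,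
        fun h => by linarith [mem_closedBall_zero_iff.1 h]⟩
      have h5 := real_inner_le_norm (a i) (y - t • x₀)
      rw [ha, one_mul, inner_sub_right, inner_smul_right] at h5
      have h6 := mul_le_mul_of_nonneg_left (hx i) t0.le
      have h7 := mul_le_mul_of_nonneg_right t1 hρ.le
      have h8 : ((q + d) / (2 * q) + ε) * ρ = ρ := by rw [ε2, one_mul]
      linarith
    have h1 := rad_caps hd ha hb hr ρ (g := (Iic (d * ρ)).indicator fun _ => 1)
      (measurable_const.indicator measurableSet_Iic)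
    rw [int_ind _ measurableSet_Iic, int_ind _ measurableSet_Iic, one_mul, one_mul,
      show {x : E d | ‖x‖ ∈ Iic (d * ρ)} = closedBall 0 (d * ρ) by ext x; simp,
      inter_eq_left.2 (R_sub hd hb hr hρ.le)] at h1
    rw [← measure_inter_add_sdiff (R a ρ ∩ ball 0 (q * ρ)) (t := closedBall 0 (d * ρ))
      measurableSet_closedBall]
    refine add_le_add (h1.trans (measure_mono fun x h => ⟨⟨h.1, ?_⟩, h.2⟩)) ?_
    · exact closedBall_subset_ball (by gcongr) h.2
    · refine le_trans ?_ (measure_mono hs)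
      rw [Measure.addHaar_ball_center _ (t • x₀)]
      exact mul_le_of_le_one_left zero_le (ENNReal.ofReal_le_one.2 (D_le ha hb))

theorem rad_stab (hd : 3 ≤ d) (ha : ∀ i, ‖a i‖ = 1) (hb : ∀ i, ‖b i‖ = 1)
    (hr : ∀ i l, i ≠ l → ⟪b i, b l⟫ = -1 / (d : ℝ)) {ρ q : ℝ} (hρ : 0 < ρ) (hq : d < q)
    {g : ℝ → ℝ≥0∞} (hg : Measurable g) {w : ℝ≥0∞} (hw : ∀ r, 0 ≤ r → r < q * ρ → w ≤ g r) :
    (∫⁻ x in R b ρ, g ‖x‖)
        + w * (ENNReal.ofReal (D a b) * volume (ball (0 : E d) ((q - d) / (2 * q) * ρ)))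
      ≤ ∫⁻ x in R a ρ, g ‖x‖ := by
  set h : ℝ → ℝ≥0∞ := (Iio (q * ρ)).indicator fun _ => w with hh
  have hm : Measurable h := measurable_const.indicator measurableSet_Iio
  have hm' : Measurable fun x : E d => h ‖x‖ := hm.comp measurable_norm
  have sp : ∀ u : Fin (d + 1) → E d, ∫⁻ x in R u ρ, g ‖x‖
      = (∫⁻ x in R u ρ, (g ‖x‖ - h ‖x‖)) + w * volume (R u ρ ∩ ball 0 (q * ρ)) := fun u => by
    rw [show ball (0 : E d) (q * ρ) = {x : E d | ‖x‖ ∈ Iio (q * ρ)} by ext x; simp,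
      ← int_ind _ measurableSet_Iio, ← hh, ← lintegral_add_right _ hm']
    refine lintegral_congr fun x => (tsub_add_cancel_of_le ?_).symm
    by_cases hx : ‖x‖ < q * ρ
    · rw [hh, indicator_of_mem (s := Iio (q * ρ)) hx]
      exact hw _ (norm_nonneg _) hx
    · rw [hh, indicator_of_notMem (s := Iio (q * ρ)) hx]
      exact zero_le
  rw [sp, sp, add_assoc, ← mul_add]
  refine add_le_add (rad_caps hd ha hb hr ρ (g := fun r => g r - h r) (hg.sub hm)) ?_
  exact mul_le_mul_right (le_trans (add_le_add_left (measure_mono inter_subset_left) _)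
    (euc hd ha hb hr hρ hq)) _

theorem ball_pos {ρ : ℝ} (hρ : 0 < ρ) : 0 < (volume (ball (0 : E d) ρ)).toReal :=
  ENNReal.toReal_pos (measure_ball_pos _ _ hρ).ne' measure_ball_lt_top.ne

theorem hyp (hd : 3 ≤ d) {ρ p : ℝ} (hρ : 0 < ρ) (hρd : d * ρ < 1) (hp : 0 ≤ p) :
    ∃ κ : ℝ, 0 < κ ∧ ∀ a b : Fin (d + 1) → E d, (∀ i, ‖a i‖ = 1) → (∀ i, ‖b i‖ = 1) →
      (∀ i l, i ≠ l → ⟪b i, b l⟫ = -1 / (d : ℝ)) →
      (∫⁻ x in R b ρ ∩ ball 0 1, ENNReal.ofReal ((1 - ‖x‖ ^ 2) ^ (-p)))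
          + ENNReal.ofReal (κ * ∑ i, ∑ j, (⟪a i, a j⟫ - ⟪b i, b j⟫) ^ 2)
        ≤ ∫⁻ x in R a ρ ∩ ball 0 1, ENNReal.ofReal ((1 - ‖x‖ ^ 2) ^ (-p)) := by
  have hq : (d : ℝ) < ρ⁻¹ := by rwa [← one_div, lt_div_iff₀ hρ]
  have e0 : 0 < (ρ⁻¹ - d) / (2 * ρ⁻¹) * ρ := by
    have := sub_pos.2 hq
    positivity
  refine ⟨(volume (ball (0 : E d) ((ρ⁻¹ - d) / (2 * ρ⁻¹) * ρ))).toReal / (8 * (d + 1) ^ 2),
    div_pos (ball_pos e0) (by positivity), fun a b ha hb hr => ?_⟩
  have hF : Measurable fun r : ℝ => ENNReal.ofReal ((1 - r ^ 2) ^ (-p)) := by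
    have : Measurable fun r : ℝ => 1 - r ^ 2 := by fun_prop
    exact (this.pow_const _).ennreal_ofReal
  have h := rad_stab hd ha hb hr hρ hq (w := 1)
    (g := (Iio 1).indicator fun r : ℝ => ENNReal.ofReal ((1 - r ^ 2) ^ (-p)))
    (hF.indicator measurableSet_Iio) fun r r0 r1 => by
      rw [inv_mul_cancel₀ hρ.ne'] at r1
      rw [indicator_of_mem (s := Iio 1) r1, ENNReal.one_le_ofReal]
      exact Real.one_le_rpow_of_pos_of_le_one_of_nonpos (by nlinarith) (by nlinarith)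
        (by linarith)
  have tr : ∀ u : Fin (d + 1) → E d,
      ∫⁻ x in R u ρ ∩ ball 0 1, ENNReal.ofReal ((1 - ‖x‖ ^ 2) ^ (-p)) = ∫⁻ x in R u ρ,
        (Iio 1).indicator (fun r : ℝ => ENNReal.ofReal ((1 - r ^ 2) ^ (-p))) ‖x‖ := fun u => by
    rw [inter_comm, ← Measure.restrict_restrict measurableSet_ball,
      ← lintegral_indicator measurableSet_ball]
    refine lintegral_congr fun x => ?_
    simp only [indicator, mem_ball_zero_iff, mem_Iio]
  rw [tr, tr]
  refine le_trans (le_of_eq ?_) h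
  congr 1
  rw [one_mul, ← ENNReal.ofReal_toReal (a := volume _) measure_ball_lt_top.ne,
    ← ENNReal.ofReal_mul (D_nonneg a b), ENNReal.toReal_ofReal ENNReal.toReal_nonneg, D]
  congr 1
  ring

end Pool.Agent.P.MP_bc3e0b_gt.St
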