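import Pool.Agent.P.MP_bc3e0b_gt.St.Euc
import Pool.Agent.P.MP_bc3e0b_gt.Sphere

set_option autoImplicit false

namespace Pool.Agent.P.MP_bc3e0b_gt.St

open MeasureTheory Set Filter Topology Metric Caps Matrix
open scoped ENNReal RealInnerProductSpace

variable {d : ℕ}

theorem haus_eq (w : Fin (d + 1) → E (d + 1)) :
    gam (d + 1) univ * μH[d] {x : E (d + 1) | ‖x‖ = 1 ∧ ∀ i, 0 ≤ ⟪w i, x⟫}
      = μH[d] (sphere (0 : E (d + 1)) 1) * gam (d + 1) (cone w) := by
  set μ : Measure (E (d + 1)) := (μH[d]).restrict (sphere 0 1) with hμ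
  set nrm : E (d + 1) → E (d + 1) := fun x => ‖x‖⁻¹ • x with hnrm
  have hm : Measurable nrm := by fun_prop
  set ν := (gam (d + 1)).map nrm with hν
  have hS : MeasurableSet (sphere (0 : E (d + 1)) 1) := isClosed_sphere.measurableSet
  have : IsFiniteMeasure μ := isFiniteMeasure_restrict.2 (hausdorff_sphere_lt_top d).ne
  have h0 : ∀ᵐ x ∂gam (d + 1), x ≠ 0 :=
    (withDensity_absolutelyContinuous _ _).ae_le (Measure.ae_ne volume 0)
  have key := invariant_unique (μ := μ) (ν := ν)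
    ((ae_restrict_mem hS).mono fun x hx => by simpa using hx)
    (by
      rw [hν, ae_map_iff hm.aemeasurable (by measurability)]
      filter_upwards [h0] with x hx
      simp [hnrm, norm_smul, hx])
    (fun T => by
      have hT : T ⁻¹' sphere 0 1 = sphere 0 1 := by ext x; simp
      have := (T.toIsometryEquiv.measurePreserving_hausdorffMeasure d).restrict_preimage hS
      rw [LinearIsometryEquiv.coe_toIsometryEquiv, hT] at this
      exact this.map_eq)
    (fun T => by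
      have hT : Measurable T := T.continuous.measurable
      rw [hν, Measure.map_map hT hm]
      conv_rhs => rw [← gam_map _ T, Measure.map_map hm hT]
      congr 1
      funext x
      simp [hnrm])
  have e1 : μH[d] {x : E (d + 1) | ‖x‖ = 1 ∧ ∀ i, 0 ≤ ⟪w i, x⟫} = μ (cone w) := by
    rw [hμ, Measure.restrict_apply (isClosed_cone w).measurableSet]
    congr 1
    ext x
    simp [cone, and_comm]
  have e2 : ν (cone w) = gam (d + 1) (cone w) := by
    rw [hν, Measure.map_apply hm (isClosed_cone w).measurableSet]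
    refine measure_congr ?_
    filter_upwards [h0] with x hx
    have hx' : 0 < ‖x‖⁻¹ := inv_pos.2 (norm_pos_iff.2 hx)
    refine propext ?_
    change (∀ i, 0 ≤ ⟪w i, ‖x‖⁻¹ • x⟫) ↔ ∀ i, 0 ≤ ⟪w i, x⟫
    simp only [inner_smul_right, mul_nonneg_iff_of_pos_left hx']
  have e3 : ν univ = gam (d + 1) univ := by rw [hν, Measure.map_apply hm MeasurableSet.univ]; rfl
  have k1 := congrArg (fun κ : Measure _ => κ (cone w)) key
  simp only [Measure.smul_apply, smul_eq_mul, e2, e3] at k1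
  rw [e1, k1, hμ, Measure.restrict_apply_univ]

theorem haus_pos (d : ℕ) : μH[d] (sphere (0 : E (d + 1)) 1) ≠ 0 := by
  intro h0
  set ob := EuclideanSpace.basisFun (Fin (d + 1)) ℝ
  have hL : LipschitzWith 1 fun x : E (d + 1) => Fin.tail (co ob x) := by
    refine LipschitzWith.of_dist_le_mul fun x y => ?_
    rw [NNReal.coe_one, one_mul, dist_pi_le_iff dist_nonneg]
    intro l
    have := abs_real_inner_le_norm (ob l.succ) (x - y)
    rw [ob.orthonormal.1, one_mul, inner_sub_right] at this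
    rw [dist_eq_norm x y]
    exact this
  have h1 := hL.hausdorffMeasure_image_le (Nat.cast_nonneg d) (sphere 0 1)
  have h2 := hausdorffMeasure_pi_real (ι := Fin d)
  rw [Fintype.card_fin] at h2
  rw [h0, mul_zero, h2] at h1
  have h3 : IsOpen {X : Fin d → ℝ | X ⬝ᵥ X < 1} := isOpen_lt (by fun_prop) continuous_const
  refine (h3.measure_pos volume ⟨0, by simp⟩).not_ge (le_trans (measure_mono fun X hX => ?_) h1)
  refine ⟨pt ob (Fin.cons √(1 - X ⬝ᵥ X) X), ?_, by simp only [co_pt, Fin.tail_cons]⟩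
  have h4 := norm_pt ob (Fin.cons √(1 - X ⬝ᵥ X) X)
  rw [dot_cons, Real.sq_sqrt (sub_nonneg.2 (le_of_lt hX)), sub_add_cancel] at h4
  rw [mem_sphere_zero_iff_norm]
  exact (pow_eq_one_iff_of_nonneg (norm_nonneg _) two_ne_zero).1 h4

/-- Horizontal parts of the normals. -/
noncomputable def hz (ob : OrthonormalBasis (Fin (d + 1)) ℝ (E (d + 1))) (t : ℝ)
    (w : Fin (d + 1) → E (d + 1)) (i : Fin (d + 1)) : E d :=
  WithLp.toLp 2 ((-t⁻¹) • Fin.tail (co ob (w i)))

theorem inner_hz (ob : OrthonormalBasis (Fin (d + 1)) ℝ (E (d + 1))) {s t : ℝ} (ht : t ≠ 0)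
    {w : Fin (d + 1) → E (d + 1)} (hw : ∀ i, ⟪w i, ob 0⟫ = s) (i j : Fin (d + 1)) :
    ⟪w i, w j⟫ = s ^ 2 + t ^ 2 * ⟪hz ob t w i, hz ob t w j⟫ := by
  have e : ∀ i, co ob (w i) 0 = s := fun i => by rw [co, real_inner_comm, hw]
  rw [inner_co ob, inner_dot]
  simp only [hz, smul_dotProduct, dotProduct_smul, smul_eq_mul]
  rw [dotProduct, Fin.sum_univ_succ, e, e]
  simp only [dotProduct, Fin.tail]
  field_simp

theorem gam_slice (ob : OrthonormalBasis (Fin (d + 1)) ℝ (E (d + 1))) {s t : ℝ} (ht : 0 < t)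
    {w : Fin (d + 1) → E (d + 1)} (hw : ∀ i, ⟪w i, ob 0⟫ = s) :
    gam (d + 1) (cone w) = ∫⁻ z : ℝ, ∫⁻ y in R (hz ob t w) (z * (s / t)),
      ENNReal.ofReal (Real.exp (-((z ^ 2 + ‖y‖ ^ 2) / 2))) := by
  have m1 : MeasurePreserving (fun p : ℝ × (Fin d → ℝ) => pt ob (Fin.cons p.1 p.2))
      (volume.prod volume) volume := by
    have e : (fun p : ℝ × (Fin d → ℝ) => pt ob (Fin.cons p.1 p.2))
        = (ob.repr.symm ∘ WithLp.toLp 2)
          ∘ (MeasurableEquiv.piFinSuccAbove (fun _ : Fin (d + 1) => ℝ) 0).symm := by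
      funext p
      simp [MeasurableEquiv.piFinSuccAbove_symm_apply, Fin.insertNthEquiv, pt]
    rw [e]
    exact (ob.repr.symm.measurePreserving.comp (PiLp.volume_preserving_toLp _)).comp
      (volume_preserving_piFinSuccAbove (fun _ : Fin (d + 1) => ℝ) 0).symm
  have hc := (isClosed_cone w).measurableSet
  have hi := (gam_meas (d + 1)).indicator hc
  rw [gam, withDensity_apply _ hc, ← lintegral_indicator hc, ← m1.lintegral_comp hi]
  refine (lintegral_prod _ (hi.comp m1.measurable).aemeasurable).trans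
    (lintegral_congr fun z => ?_)
  have hg : Measurable fun y : E d => ENNReal.ofReal (Real.exp (-((z ^ 2 + ‖y‖ ^ 2) / 2))) := by
    fun_prop
  rw [← lintegral_indicator (meas_R _ _),
    ← (PiLp.volume_preserving_toLp (Fin d)).lintegral_comp (hg.indicator (meas_R _ _))]
  refine lintegral_congr fun X => ?_
  have e : ∀ i, co ob (w i) 0 = s := fun i => by rw [co, real_inner_comm, hw]
  have e1 : pt ob (Fin.cons z X) ∈ cone w ↔ WithLp.toLp 2 X ∈ R (hz ob t w) (z * (s / t)) := by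
    refine forall_congr' fun i => ?_
    rw [inner_cons, e, inner_dot]
    simp only [hz, smul_dotProduct, smul_eq_mul]
    rw [← sub_nonneg (a := z * (s / t)),
      show z * (s / t) - -t⁻¹ * (Fin.tail (co ob (w i)) ⬝ᵥ X)
        = t⁻¹ * (s * z + Fin.tail (co ob (w i)) ⬝ᵥ X) by ring,
      mul_nonneg_iff_of_pos_left (inv_pos.2 ht)]
  simp only [Function.comp_apply, indicator, norm_pt, dot_cons,
    ← real_inner_self_eq_norm_sq (WithLp.toLp 2 X), inner_dot]
  by_cases h : pt ob (Fin.cons z X) ∈ cone w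
  · rw [if_pos h, if_pos (e1.1 h)]
  · rw [if_neg h, if_neg (e1.not.1 h)]

theorem reg_gram {k : ℕ} {s : ℝ} {c : E (k + 2)} {m : Fin (k + 2) → E (k + 2)} (hc : ‖c‖ = 1)
    (hm : ∀ i, ‖m i‖ = 1) (hmc : ∀ i, ⟪m i, c⟫ = s) (hml : LinearIndependent ℝ m)
    (hreg : ∀ i j k l, i ≠ j → k ≠ l → ⟪m i, m j⟫ = ⟪m k, m l⟫) {i j : Fin (k + 2)}
    (hij : i ≠ j) : 1 + (k + 1) * ⟪m i, m j⟫ = (k + 2) * s ^ 2 := by
  have h1 := hml.span_eq_top_of_card_eq_finrank (by simp)
  obtain ⟨w, hw⟩ := (Submodule.mem_span_range_iff_exists_fun ℝ).1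
    (show c ∈ Submodule.span ℝ (range m) by rw [h1]; trivial)
  have f1 : (∑ l, w l) * s = 1 := by
    have := congrArg (fun y => ⟪y, c⟫) hw
    simpa [sum_inner, inner_smul_left, hmc, hc, Finset.sum_mul] using this
  have f2 : ∀ l, ⟪m l, ∑ p, m p⟫ = 1 + (k + 1) * ⟪m i, m j⟫ := fun l => by
    rw [inner_sum, ← Finset.add_sum_erase _ _ (Finset.mem_univ l),
      Finset.sum_congr rfl fun p hp => hreg l p i j (Finset.ne_of_mem_erase hp).symm hij]
    simp [hm]
  have f3 : (∑ l, w l) * (1 + (k + 1) * ⟪m i, m j⟫) = (k + 2) * s := by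
    have := congrArg (fun y => ⟪y, ∑ p, m p⟫) hw
    simp only [sum_inner, real_inner_smul_left, f2, ← Finset.sum_mul] at this
    rw [this, inner_sum, Finset.sum_congr rfl fun p _ => (real_inner_comm _ _).trans (hmc p)]
    simp
  linear_combination s * f3 - (1 + (k + 1) * ⟪m i, m j⟫) * f1

theorem sph (hd : 3 ≤ d) {s t : ℝ} (hs : 0 < s) (ht : 0 < t) (hst : s ^ 2 + t ^ 2 = 1) :
    ∃ κ : ℝ, 0 < κ ∧ ∀ (c : E (d + 1)) (n m : Fin (d + 1) → E (d + 1)), ‖c‖ = 1 →
      (∀ i, ‖n i‖ = 1) → (∀ i, ‖m i‖ = 1) → (∀ i, ⟪n i, c⟫ = s) → (∀ i, ⟪m i, c⟫ = s) →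
      LinearIndependent ℝ m → (∀ i j k l, i ≠ j → k ≠ l → ⟪m i, m j⟫ = ⟪m k, m l⟫) →
      μH[d] {x : E (d + 1) | ‖x‖ = 1 ∧ ∀ i, 0 ≤ ⟪m i, x⟫}
          + ENNReal.ofReal (κ * ∑ i, ∑ j, (⟪n i, n j⟫ - ⟪m i, m j⟫) ^ 2)
        ≤ μH[d] {x : E (d + 1) | ‖x‖ = 1 ∧ ∀ i, 0 ≤ ⟪n i, x⟫} := by
  have d3 : (3 : ℝ) ≤ d := by exact_mod_cast hd
  have r0 : 0 < s / t := by positivity
  set W := ENNReal.ofReal (Real.exp (-((2 ^ 2 + ((d + 1) * (2 * (s / t))) ^ 2) / 2))) with hW
  set ε : ℝ := (d + 1 - d) / (2 * (d + 1)) with hε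
  have ε0 : 0 < ε := by
    rw [hε, add_sub_cancel_left]
    positivity
  set V := volume (ball (0 : E d) (ε * (s / t))) with hV
  set K := μH[d] (sphere (0 : E (d + 1)) 1) * (W * V) / gam (d + 1) univ with hK
  have K1 : K ≠ ∞ := ENNReal.div_ne_top (ENNReal.mul_ne_top (hausdorff_sphere_lt_top d).ne
    (ENNReal.mul_ne_top ENNReal.ofReal_ne_top measure_ball_lt_top.ne)) (gam_ne_zero _)
  have K0 : K ≠ 0 := ENNReal.div_ne_zero.2 ⟨mul_ne_zero (haus_pos d) (mul_ne_zero
    (ENNReal.ofReal_pos.2 (Real.exp_pos _)).ne' (measure_ball_pos _ _ (by positivity)).ne'),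
    measure_ne_top _ _⟩
  refine ⟨K.toReal / (8 * (d + 1) ^ 2), div_pos (ENNReal.toReal_pos K0 K1) (by positivity),
    fun c n m hc hn hm hnc hmc hml hreg => ?_⟩
  obtain ⟨ob, rfl⟩ : ∃ ob : OrthonormalBasis (Fin (d + 1)) ℝ (E (d + 1)), ob 0 = c := by
    obtain ⟨k, rfl⟩ : ∃ k, d = k + 1 := ⟨d - 1, by omega⟩
    obtain ⟨z, z1, z2⟩ := exists_perp (fun _ : Fin 1 => c) Finset.univ (by simp)
    obtain ⟨ob, h, -⟩ := exists_ob (m := k) hc z1 (by rw [real_inner_comm]; exact z2 0 (by simp))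
    exact ⟨ob, h⟩
  have un : ∀ {w : Fin (d + 1) → E (d + 1)}, (∀ i, ‖w i‖ = 1) → (∀ i, ⟪w i, ob 0⟫ = s) →
      ∀ i, ‖hz ob t w i‖ = 1 := fun {w} h1 h2 i => by
    have := inner_hz ob ht.ne' h2 i i
    rw [real_inner_self_eq_norm_sq, real_inner_self_eq_norm_sq, h1] at this
    refine (pow_eq_one_iff_of_nonneg (norm_nonneg _) two_ne_zero).1
      (mul_left_cancel₀ (pow_ne_zero 2 ht.ne') ?_)
    linarith
  have ha := un hn hnc
  have hb := un hm hmc
  have hr : ∀ i l, i ≠ l → ⟪hz ob t m i, hz ob t m l⟫ = -1 / (d : ℝ) := fun i l hil => by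
    obtain ⟨k, rfl⟩ : ∃ k, d = k + 1 := ⟨d - 1, by omega⟩
    have h1 := reg_gram hc hm hmc hml hreg hil
    rw [inner_hz ob ht.ne' hmc] at h1
    rw [eq_div_iff (by positivity)]
    push_cast
    refine mul_left_cancel₀ (pow_ne_zero 2 ht.ne') ?_
    linear_combination h1 + hst
  have key : gam (d + 1) (cone m) + W * (ENNReal.ofReal (D (hz ob t n) (hz ob t m)) * V)
      ≤ gam (d + 1) (cone n) := by
    rw [gam_slice ob ht hmc, gam_slice ob ht hnc]
    have e : W * (ENNReal.ofReal (D (hz ob t n) (hz ob t m)) * V) = ∫⁻ z : ℝ, (Icc 1 2).indicator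
        (fun _ => W * (ENNReal.ofReal (D (hz ob t n) (hz ob t m)) * V)) z := by
      rw [lintegral_indicator_const measurableSet_Icc, Real.volume_Icc]
      norm_num
    rw [e, ← lintegral_add_right _ (measurable_const.indicator measurableSet_Icc)]
    refine lintegral_mono fun z => ?_
    have hg : Measurable fun r : ℝ => ENNReal.ofReal (Real.exp (-((z ^ 2 + r ^ 2) / 2))) := by
      fun_prop
    by_cases hz : z ∈ Icc (1 : ℝ) 2
    · rw [indicator_of_mem hz]
      have z0 : 0 < z := by linarith [hz.1]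
      refine le_trans ?_ (rad_stab hd ha hb hr (q := d + 1) (mul_pos z0 r0) (lt_add_one _) hg
        (w := W) fun r h0 h1 => ENNReal.ofReal_le_ofReal (Real.exp_le_exp.2 ?_))
      · rw [← hε, hV]
        gcongr
        exact le_mul_of_one_le_left r0.le hz.1
      · have h2 : r ≤ (d + 1) * (2 * (s / t)) := h1.le.trans (by gcongr; exact hz.2)
        have h3 : z ≤ 2 := hz.2
        gcongr
    · rw [indicator_of_notMem hz, add_zero]
      exact rad_caps hd ha hb hr _ hg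
  have hD : K.toReal / (8 * (d + 1) ^ 2) * ∑ i, ∑ j, (⟪n i, n j⟫ - ⟪m i, m j⟫) ^ 2
      ≤ K.toReal * D (hz ob t n) (hz ob t m) := by
    rw [D, div_mul_eq_mul_div, mul_div_assoc]
    refine mul_le_mul_of_nonneg_left (div_le_div_of_nonneg_right (Finset.sum_le_sum fun i _ =>
      Finset.sum_le_sum fun j _ => ?_) (by positivity)) ENNReal.toReal_nonneg
    rw [inner_hz ob ht.ne' hnc, inner_hz ob ht.ne' hmc, add_sub_add_left_eq_sub, ← mul_sub, mul_pow]
    refine mul_le_of_le_one_left (sq_nonneg _) (pow_le_one₀ (sq_nonneg _) ?_)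
    nlinarith
  rw [← ENNReal.mul_le_mul_iff_right (gam_ne_zero (d + 1)) (measure_ne_top _ _), mul_add, haus_eq,
    haus_eq]
  refine le_trans (add_le_add_right ?_ _) (le_of_eq_of_le (mul_add _ _ _).symm
    (mul_le_mul_right key _))
  refine le_trans (mul_le_mul_right (ENNReal.ofReal_le_ofReal hD) _) (le_of_eq ?_)
  rw [ENNReal.ofReal_mul ENNReal.toReal_nonneg, ENNReal.ofReal_toReal K1, ← mul_assoc, hK,
    ENNReal.mul_div_cancel (gam_ne_zero _) (measure_ne_top _ _)]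
  ring

end Pool.Agent.P.MP_bc3e0b_gt.St
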